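import Pool.Agent.Helper45.LGB.St

set_option autoImplicit false

namespace Pool.Agent.Helper90.LGB

open Pool.Agent.Helper45.LGB

private lemma lie_zero (hLST : StLST) (p : ℕ) : PP p 0 0 0 := by
  intro ι E V _ _ f Y W W' hC u hu _ w hw
  obtain ⟨_, _, _, _, hS', hN⟩ := hC
  have h1 : w ∈ W' := by
    have h2 := hN (fun i => i.elim0) (fun i => i.elim0) w hw
    simpa using h2
  have h8 := (hLST p ι V f Y).2.2.2.2.2.2.2.1
  exact h8 W' hS' u hu w h1

/-- LIE. -/
theorem hLIE (hLST : StLST) (hPPS : StPPS) : StLIE := by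
  intro p hp m
  induction m with
  | zero =>
    intro _
    exact ⟨0, 0, lie_zero hLST p⟩
  | succ m ih =>
    intro hm
    obtain ⟨r, q, hPP⟩ := ih (by omega)
    exact ⟨_, _, hPPS p m r q hm hPP⟩

end Pool.Agent.Helper90.LGB
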